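import Pool.Agent.N822.OG.Stm

/-!
# Project OG: the decomposition family
-/

namespace Pool.Agent.N879.OG

open SimpleGraph Pool.Agent.N822.OG

theorem dv_asymm : ∀ i j : Fin 9, Dv i j → ¬ Dv j i := by decide

/-- A graph has an orientation that contains given arcs and otherwise agrees with a given
orientation. -/
theorem exists_ori {V : Type} (G : SimpleGraph V) (r A : V → V → Prop)
    (hr : ∀ x y, G.Adj x y → (r x y ∧ ¬ r y x) ∨ (r y x ∧ ¬ r x y))
    (hA : ∀ x y, A x y → G.Adj x y ∧ ¬ A y x) :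
    IsOri G (fun x y => G.Adj x y ∧ (A x y ∨ (¬ A y x ∧ r x y))) := by
  constructor
  · intro u v h
    exact h.1
  · intro u v h
    have h' := h.symm
    by_cases h1 : A u v
    · have h2 := (hA u v h1).2
      left
      refine ⟨⟨h, Or.inl h1⟩, ?_⟩
      rintro ⟨_, h3 | h3⟩
      · exact h2 h3
      · exact h3.1 h1
    · by_cases h2 : A v u
      · right
        refine ⟨⟨h', Or.inl h2⟩, ?_⟩
        rintro ⟨_, h3 | h3⟩
        · exact h1 h3
        · exact h3.1 h2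
      · rcases hr u v h with h3 | h3
        · left
          refine ⟨⟨h, Or.inr ⟨h2, h3.1⟩⟩, ?_⟩
          rintro ⟨_, h4 | h4⟩
          · exact h2 h4
          · exact h3.2 h4.2
        · right
          refine ⟨⟨h', Or.inr ⟨h1, h3.1⟩⟩, ?_⟩
          rintro ⟨_, h4 | h4⟩
          · exact h1 h4
          · exact h3.2 h4.2

theorem exists_ori' {V : Type} (G : SimpleGraph V) : ∃ O : V → V → Prop, IsOri G O := by
  obtain ⟨lo, _⟩ := exists_wellFoundedLT V
  refine ⟨fun x y => G.Adj x y ∧ x < y, fun u v h => h.1, fun u v h => ?_⟩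
  rcases lt_trichotomy u v with h1 | h1 | h1
  · exact Or.inl ⟨⟨h, h1⟩, fun h2 => lt_asymm h1 h2.2⟩
  · exact absurd h1 h.ne
  · exact Or.inr ⟨⟨h.symm, h1⟩, fun h2 => lt_asymm h1 h2.2⟩

/-- The conclusion of `S_DEC2`. -/
def Real2 {V : Type} (M : SimpleGraph V) (O : V → V → Prop) : Prop :=
  ∃ t : ℕ, 1 ≤ t ∧
    ∃ O' : ((V ⊕ Fin t) ⊕ (Fin (3 - 1) × Fin t)) → ((V ⊕ Fin t) ⊕ (Fin (3 - 1) × Fin t)) → Prop,
      IsOri (GM M 3 t) O' ∧ HasCopy Dv O' ∧
      ∃ σ : V ≃ V, ∀ u v, O' (.inl (.inl (σ u))) (.inl (.inl (σ v))) ↔ O u v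

/-- The embedding given by a colouring and a map of the first class. -/
def emb {V : Type} (col : Fin 9 → Fin 3) (h : Fin 9 → V ⊕ Fin 9) (i : Fin 9) :
    (V ⊕ Fin 9) ⊕ (Fin (3 - 1) × Fin 9) :=
  if col i = 0 then .inl (h i) else if col i = 1 then .inr (0, i) else .inr (1, i)

theorem fin3 (c : Fin 3) : c = 0 ∨ c = 1 ∨ c = 2 := by
  revert c
  decide

theorem real_of {V : Type} (M : SimpleGraph V) (O : V → V → Prop) (hO : IsOri M O)
    (col : Fin 9 → Fin 3) (h : Fin 9 → V ⊕ Fin 9)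
    (h1 : ∀ i j, col i = 0 → col j = 0 → h i = h j → i = j)
    (h2 : ∀ i j, Dv i j → col i = col j →
      col i = 0 ∧ ∃ u v, h i = .inl u ∧ h j = .inl v ∧ O u v) : Real2 M O := by
  obtain ⟨lo, _⟩ := exists_wellFoundedLT ((V ⊕ Fin 9) ⊕ (Fin (3 - 1) × Fin 9))
  set f := emb col h with hf
  have hinj : Function.Injective f := by
    intro i j hij
    rw [hf] at hij
    unfold emb at hij
    by_cases hi : col i = 0
    · by_cases hj : col j = 0
      · rw [if_pos hi, if_pos hj] at hij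
        exact h1 i j hi hj (Sum.inl_injective hij)
      · rw [if_pos hi, if_neg hj] at hij
        split_ifs at hij
    · by_cases hj : col j = 0
      · rw [if_neg hi, if_pos hj] at hij
        split_ifs at hij
      · rw [if_neg hi, if_neg hj] at hij
        split_ifs at hij
        · exact (Prod.ext_iff.1 (Sum.inr_injective hij)).2
        · exact (Prod.ext_iff.1 (Sum.inr_injective hij)).2
        · exact (Prod.ext_iff.1 (Sum.inr_injective hij)).2
        · exact (Prod.ext_iff.1 (Sum.inr_injective hij)).2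
  have hadj : ∀ i j, Dv i j → (GM M 3 9).Adj (f i) (f j) := by
    intro i j hij
    by_cases hc : col i = col j
    · obtain ⟨hi, u, v, hu, hv, huv⟩ := h2 i j hij hc
      have hfi : f i = .inl (.inl u) := by
        rw [hf]
        unfold emb
        rw [if_pos hi, hu]
      have hfj : f j = .inl (.inl v) := by
        rw [hf]
        unfold emb
        rw [if_pos (hc ▸ hi), hv]
      rw [hfi, hfj]
      exact hO.1 u v huv
    · rw [hf]
      unfold emb
      rcases fin3 (col i) with hi | hi | hi <;> rcases fin3 (col j) with hj | hj | hj <;>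
        simp_all [GM]
  have hVV : ∀ i j u v, Dv i j → f i = .inl (.inl u) → f j = .inl (.inl v) → O u v := by
    intro i j u v hij hi hj
    have hci : col i = 0 := by
      by_contra hcon
      rw [hf] at hi
      unfold emb at hi
      rw [if_neg hcon] at hi
      split_ifs at hi
    have hcj : col j = 0 := by
      by_contra hcon
      rw [hf] at hj
      unfold emb at hj
      rw [if_neg hcon] at hj
      split_ifs at hj
    obtain ⟨_, u', v', hu, hv, huv⟩ := h2 i j hij (hci.trans hcj.symm)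
    rw [hf] at hi hj
    unfold emb at hi hj
    rw [if_pos hci, hu] at hi
    rw [if_pos hcj, hv] at hj
    have e1 : u' = u := Sum.inl_injective (Sum.inl_injective hi)
    have e2 : v' = v := Sum.inl_injective (Sum.inl_injective hj)
    rw [← e1, ← e2]
    exact huv
  set A : (V ⊕ Fin 9) ⊕ (Fin (3 - 1) × Fin 9) → (V ⊕ Fin 9) ⊕ (Fin (3 - 1) × Fin 9) → Prop :=
    fun x y => ∃ i j, Dv i j ∧ f i = x ∧ f j = y with hA
  set r : (V ⊕ Fin 9) ⊕ (Fin (3 - 1) × Fin 9) → (V ⊕ Fin 9) ⊕ (Fin (3 - 1) × Fin 9) → Prop :=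
    fun x y => (∃ u v, x = .inl (.inl u) ∧ y = .inl (.inl v) ∧ O u v) ∨
      (¬ (∃ u v, x = .inl (.inl u) ∧ y = .inl (.inl v)) ∧ x < y) with hr
  have hrr : ∀ x y, (GM M 3 9).Adj x y → (r x y ∧ ¬ r y x) ∨ (r y x ∧ ¬ r x y) := by
    intro x y hxy
    by_cases hc : ∃ u v, x = .inl (.inl u) ∧ y = .inl (.inl v)
    · obtain ⟨u, v, rfl, rfl⟩ := hc
      have hM : M.Adj u v := hxy
      have key : ∀ a b : V, r (.inl (.inl a)) (.inl (.inl b)) ↔ O a b := by
        intro a b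
        constructor
        · rintro (⟨a', b', e1, e2, e3⟩ | ⟨e1, _⟩)
          · rw [Sum.inl_injective (Sum.inl_injective e1), Sum.inl_injective (Sum.inl_injective e2)]
            exact e3
          · exact absurd ⟨a, b, rfl, rfl⟩ e1
        · intro e
          exact Or.inl ⟨a, b, rfl, rfl, e⟩
      rw [key, key]
      exact hO.2 u v hM
    · have hc' : ¬ ∃ u v, y = .inl (.inl u) ∧ x = .inl (.inl v) := by
        rintro ⟨u, v, e1, e2⟩
        exact hc ⟨v, u, e2, e1⟩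
      have k1 : r x y ↔ x < y := by
        constructor
        · rintro (⟨a', b', e1, e2, e3⟩ | ⟨_, e1⟩)
          · exact absurd ⟨a', b', e1, e2⟩ hc
          · exact e1
        · intro e
          exact Or.inr ⟨hc, e⟩
      have k2 : r y x ↔ y < x := by
        constructor
        · rintro (⟨a', b', e1, e2, e3⟩ | ⟨_, e1⟩)
          · exact absurd ⟨a', b', e1, e2⟩ hc'
          · exact e1
        · intro e
          exact Or.inr ⟨hc', e⟩
      rw [k1, k2]
      rcases lt_trichotomy x y with e | e | e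
      · exact Or.inl ⟨e, lt_asymm e⟩
      · exact absurd e hxy.ne
      · exact Or.inr ⟨e, lt_asymm e⟩
  have hAA : ∀ x y, A x y → (GM M 3 9).Adj x y ∧ ¬ A y x := by
    rintro x y ⟨i, j, hij, rfl, rfl⟩
    refine ⟨hadj i j hij, ?_⟩
    rintro ⟨k, l, hkl, e1, e2⟩
    have e3 := hinj e1
    have e4 := hinj e2
    subst e3 e4
    exact dv_asymm _ _ hij hkl
  refine ⟨9, by norm_num, _, exists_ori (GM M 3 9) r A hrr hAA, ?_, ?_⟩
  · refine ⟨f, hinj, ?_⟩
    intro i j hij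
    exact ⟨hadj i j hij, Or.inl ⟨i, j, hij, rfl, rfl⟩⟩
  · refine ⟨Equiv.refl V, ?_⟩
    intro u v
    constructor
    · rintro ⟨_, h3 | ⟨_, h3⟩⟩
      · obtain ⟨i, j, hij, e1, e2⟩ := h3
        exact hVV i j u v hij e1 e2
      · rcases h3 with ⟨a', b', e1, e2, e3⟩ | ⟨e1, _⟩
        · have e4 : u = a' := Sum.inl_injective (Sum.inl_injective e1)
          have e5 : v = b' := Sum.inl_injective (Sum.inl_injective e2)
          rw [e4, e5]
          exact e3
        · exact absurd ⟨u, v, rfl, rfl⟩ e1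
    · intro huv
      refine ⟨hO.1 u v huv, Or.inr ⟨?_, Or.inl ⟨u, v, rfl, rfl, huv⟩⟩⟩
      rintro ⟨i, j, hij, e1, e2⟩
      have h3 := hVV i j v u hij e1 e2
      rcases hO.2 u v (hO.1 u v huv) with h4 | h4
      · exact h4.2 h3
      · exact h4.2 huv

/-! ### The four patterns -/

def colM : Fin 9 → Fin 3 := ![0, 0, 2, 0, 0, 2, 1, 1, 2]
def colOut : Fin 9 → Fin 3 := ![0, 0, 1, 1, 1, 0, 2, 2, 0]
def colIn : Fin 9 → Fin 3 := ![2, 2, 0, 0, 0, 0, 1, 1, 2]
def colThr : Fin 9 → Fin 3 := ![1, 1, 2, 2, 2, 0, 0, 0, 1]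

theorem arcsM : ∀ i j : Fin 9, Dv i j → colM i = colM j →
    (i = 1 ∧ j = 3) ∨ (i = 0 ∧ j = 4) := by decide

theorem arcsOut : ∀ i j : Fin 9, Dv i j → colOut i = colOut j →
    (i = 5 ∧ j = 0) ∨ (i = 5 ∧ j = 1) := by decide

theorem arcsIn : ∀ i j : Fin 9, Dv i j → colIn i = colIn j →
    (i = 3 ∧ j = 5) ∨ (i = 4 ∧ j = 5) := by decide

theorem arcsThr : ∀ i j : Fin 9, Dv i j → colThr i = colThr j →
    (i = 7 ∧ j = 5) ∨ (i = 5 ∧ j = 6) := by decide

theorem clsM : ∀ i : Fin 9, colM i = 0 → i = 0 ∨ i = 1 ∨ i = 3 ∨ i = 4 := by decide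
theorem clsOut : ∀ i : Fin 9, colOut i = 0 → i = 0 ∨ i = 1 ∨ i = 5 ∨ i = 8 := by decide
theorem clsIn : ∀ i : Fin 9, colIn i = 0 → i = 2 ∨ i = 3 ∨ i = 4 ∨ i = 5 := by decide
theorem clsThr : ∀ i : Fin 9, colThr i = 0 → i = 5 ∨ i = 6 ∨ i = 7 := by decide

theorem realM {V : Type} (M : SimpleGraph V) (O : V → V → Prop) (hO : IsOri M O)
    (a b c d : V) (hab : O a b) (hcd : O c d) (n1 : a ≠ b) (n2 : a ≠ c) (n3 : a ≠ d) (n4 : b ≠ c)
    (n5 : b ≠ d) (n6 : c ≠ d) : Real2 M O := by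
  apply real_of M O hO colM ![.inl c, .inl a, .inr 0, .inl b, .inl d, .inr 0, .inr 0, .inr 0, .inr 0]
  · intro i j hi hj hij
    rcases clsM i hi with rfl | rfl | rfl | rfl <;> rcases clsM j hj with rfl | rfl | rfl | rfl <;>
      simp_all
  · intro i j hij hc
    rcases arcsM i j hij hc with ⟨rfl, rfl⟩ | ⟨rfl, rfl⟩
    · exact ⟨rfl, a, b, rfl, rfl, hab⟩
    · exact ⟨rfl, c, d, rfl, rfl, hcd⟩

theorem realOut {V : Type} (M : SimpleGraph V) (O : V → V → Prop) (hO : IsOri M O)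
    (a b c : V) (hba : O b a) (hbc : O b c) (n1 : a ≠ b) (n2 : a ≠ c) (n3 : b ≠ c) :
    Real2 M O := by
  apply real_of M O hO colOut
    ![.inl a, .inl c, .inr 0, .inr 0, .inr 0, .inl b, .inr 0, .inr 0, .inr 0]
  · intro i j hi hj hij
    rcases clsOut i hi with rfl | rfl | rfl | rfl <;>
      rcases clsOut j hj with rfl | rfl | rfl | rfl <;> simp_all
  · intro i j hij hc
    rcases arcsOut i j hij hc with ⟨rfl, rfl⟩ | ⟨rfl, rfl⟩
    · exact ⟨rfl, b, a, rfl, rfl, hba⟩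
    · exact ⟨rfl, b, c, rfl, rfl, hbc⟩

theorem realIn {V : Type} (M : SimpleGraph V) (O : V → V → Prop) (hO : IsOri M O)
    (a b c : V) (hab : O a b) (hcb : O c b) (n1 : a ≠ b) (n2 : a ≠ c) (n3 : b ≠ c) :
    Real2 M O := by
  apply real_of M O hO colIn
    ![.inr 0, .inr 0, .inr 0, .inl a, .inl c, .inl b, .inr 0, .inr 0, .inr 0]
  · intro i j hi hj hij
    rcases clsIn i hi with rfl | rfl | rfl | rfl <;>
      rcases clsIn j hj with rfl | rfl | rfl | rfl <;> simp_all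
  · intro i j hij hc
    rcases arcsIn i j hij hc with ⟨rfl, rfl⟩ | ⟨rfl, rfl⟩
    · exact ⟨rfl, a, b, rfl, rfl, hab⟩
    · exact ⟨rfl, c, b, rfl, rfl, hcb⟩

theorem realThr {V : Type} (M : SimpleGraph V) (O : V → V → Prop) (hO : IsOri M O)
    (a b c : V) (hab : O a b) (hbc : O b c) (n1 : a ≠ b) (n2 : a ≠ c) (n3 : b ≠ c) :
    Real2 M O := by
  apply real_of M O hO colThr
    ![.inr 0, .inr 0, .inr 0, .inr 0, .inr 0, .inl b, .inl c, .inl a, .inr 0]
  · intro i j hi hj hij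
    rcases clsThr i hi with rfl | rfl | rfl <;>
      rcases clsThr j hj with rfl | rfl | rfl <;> simp_all
  · intro i j hij hc
    rcases arcsThr i j hij hc with ⟨rfl, rfl⟩ | ⟨rfl, rfl⟩
    · exact ⟨rfl, a, b, rfl, rfl, hab⟩
    · exact ⟨rfl, b, c, rfl, rfl, hbc⟩

theorem dec2 : S_DEC2 := by
  intro V _ M O hM hO
  change Real2 M O
  rcases hM with ⟨a, b, c, d, n1, n2, n3, n4, hab, hcd, _, _⟩ | ⟨a, b, c, n1, hab, hbc, _, _⟩
  · rcases hO.2 a b hab with ⟨h1, _⟩ | ⟨h1, _⟩ <;> rcases hO.2 c d hcd with ⟨h2, _⟩ | ⟨h2, _⟩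
    · exact realM M O hO a b c d h1 h2 hab.ne n1 n2 n3 n4 hcd.ne
    · exact realM M O hO a b d c h1 h2 hab.ne n2 n1 n4 n3 hcd.ne.symm
    · exact realM M O hO b a c d h1 h2 hab.ne.symm n3 n4 n1 n2 hcd.ne
    · exact realM M O hO b a d c h1 h2 hab.ne.symm n4 n3 n2 n1 hcd.ne.symm
  · rcases hO.2 a b hab with ⟨h1, _⟩ | ⟨h1, _⟩ <;> rcases hO.2 b c hbc with ⟨h2, _⟩ | ⟨h2, _⟩
    · exact realThr M O hO a b c h1 h2 hab.ne n1 hbc.ne
    · exact realIn M O hO a b c h1 h2 hab.ne n1 hbc.ne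
    · exact realOut M O hO a b c h1 h2 hab.ne n1 hbc.ne
    · exact realThr M O hO c b a h2 h1 hbc.ne.symm n1.symm hab.ne.symm

/-! ### The members of the family -/

/-- The subgraph with the edges `ab` and `cd`. -/
def sub {V : Type} (M : SimpleGraph V) (a b c d : V) (hab : M.Adj a b) (hcd : M.Adj c d) :
    M.Subgraph where
  verts := {v | v = a ∨ v = b ∨ v = c ∨ v = d}
  Adj u v := (u = a ∧ v = b) ∨ (u = b ∧ v = a) ∨ (u = c ∧ v = d) ∨ (u = d ∧ v = c)
  adj_sub := by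
    rintro u v (⟨rfl, rfl⟩ | ⟨rfl, rfl⟩ | ⟨rfl, rfl⟩ | ⟨rfl, rfl⟩)
    · exact hab
    · exact hab.symm
    · exact hcd
    · exact hcd.symm
  edge_vert := by
    rintro u v (⟨rfl, rfl⟩ | ⟨rfl, rfl⟩ | ⟨rfl, rfl⟩ | ⟨rfl, rfl⟩) <;> simp
  symm := ⟨by
    rintro u v (⟨rfl, rfl⟩ | ⟨rfl, rfl⟩ | ⟨rfl, rfl⟩ | ⟨rfl, rfl⟩) <;> simp⟩

theorem contained_of {V : Type} [Finite V] (M : SimpleGraph V) (h : IsTwoK2 M ∨ IsP3 M) :
    ∃ t : ℕ, 1 ≤ t ∧ Hg ⊑ GM M 3 t := by
  obtain ⟨O, hO⟩ := exists_ori' M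
  obtain ⟨t, ht, O', hO', ⟨f, hf, hD⟩, _⟩ := dec2 V M O h hO
  refine ⟨t, ht, ⟨⟨⟨f, ?_⟩, hf⟩⟩⟩
  rintro i j (hij | hij)
  · exact hO'.1 _ _ (hD i j hij)
  · exact (hO'.1 _ _ (hD j i hij)).symm

theorem top_of {V : Type} [Finite V] (M : SimpleGraph V)
    (hmin : ∀ M' : M.Subgraph, M' ≠ ⊤ → ¬ ∃ t : ℕ, 1 ≤ t ∧ Hg ⊑ GM M'.coe 3 t)
    (M' : M.Subgraph) (h : IsTwoK2 M'.coe ∨ IsP3 M'.coe) : M' = ⊤ := by
  by_contra hcon
  exact hmin M' hcon (contained_of M'.coe h)

theorem caseM {V : Type} [Finite V] (M : SimpleGraph V)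
    (hmin : ∀ M' : M.Subgraph, M' ≠ ⊤ → ¬ ∃ t : ℕ, 1 ≤ t ∧ Hg ⊑ GM M'.coe 3 t)
    (a b c d : V) (hab : M.Adj a b) (hcd : M.Adj c d) (n1 : a ≠ c) (n2 : a ≠ d) (n3 : b ≠ c)
    (n4 : b ≠ d) : IsTwoK2 M := by
  have htop : sub M a b c d hab hcd = ⊤ := by
    apply top_of M hmin
    left
    refine ⟨⟨a, by simp [sub]⟩, ⟨b, by simp [sub]⟩, ⟨c, by simp [sub]⟩, ⟨d, by simp [sub]⟩,
      ?_, ?_, ?_, ?_, ?_, ?_, ?_, ?_⟩
    · simpa using n1
    · simpa using n2
    · simpa using n3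
    · simpa using n4
    · simp [sub]
    · simp [sub]
    · rintro ⟨v, hv⟩
      simpa [sub] using hv
    · rintro ⟨u, hu⟩ ⟨v, hv⟩ huv
      simpa [sub] using huv
  refine ⟨a, b, c, d, n1, n2, n3, n4, hab, hcd, ?_, ?_⟩
  · intro v
    have hv : v ∈ (sub M a b c d hab hcd).verts := by
      rw [htop]
      trivial
    exact hv
  · intro u v huv
    have h : (sub M a b c d hab hcd).Adj u v := by
      rw [htop]
      exact huv
    exact h

theorem caseP {V : Type} [Finite V] (M : SimpleGraph V)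
    (hmin : ∀ M' : M.Subgraph, M' ≠ ⊤ → ¬ ∃ t : ℕ, 1 ≤ t ∧ Hg ⊑ GM M'.coe 3 t)
    (a b c : V) (hab : M.Adj a b) (hbc : M.Adj b c) (n1 : a ≠ c) : IsP3 M := by
  have htop : sub M a b b c hab hbc = ⊤ := by
    apply top_of M hmin
    right
    refine ⟨⟨a, by simp [sub]⟩, ⟨b, by simp [sub]⟩, ⟨c, by simp [sub]⟩, ?_, ?_, ?_, ?_, ?_⟩
    · simpa using n1
    · simp [sub]
    · simp [sub]
    · rintro ⟨v, hv⟩
      simpa [sub] using hv
    · rintro ⟨u, hu⟩ ⟨v, hv⟩ huv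
      simpa [sub] using huv
  refine ⟨a, b, c, n1, hab, hbc, ?_, ?_⟩
  · intro v
    have hv : v ∈ (sub M a b b c hab hbc).verts := by
      rw [htop]
      trivial
    rcases hv with h | h | h | h
    · exact Or.inl h
    · exact Or.inr (Or.inl h)
    · exact Or.inr (Or.inl h)
    · exact Or.inr (Or.inr h)
  · intro u v huv
    have h : (sub M a b b c hab hbc).Adj u v := by
      rw [htop]
      exact huv
    exact h

/-- Two edges of the graph, not necessarily disjoint but different. -/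
theorem case_two {V : Type} [Finite V] (M : SimpleGraph V)
    (hmin : ∀ M' : M.Subgraph, M' ≠ ⊤ → ¬ ∃ t : ℕ, 1 ≤ t ∧ Hg ⊑ GM M'.coe 3 t)
    (a b c d : V) (hab : M.Adj a b) (hcd : M.Adj c d) (h1 : ¬ (a = c ∧ b = d))
    (h2 : ¬ (a = d ∧ b = c)) : IsTwoK2 M ∨ IsP3 M := by
  by_cases e1 : a = c
  · subst e1
    right
    have h3 : b ≠ d := fun h => h1 ⟨rfl, h⟩
    exact caseP M hmin b a d hab.symm hcd h3
  by_cases e2 : a = d
  · subst e2
    right
    have h3 : b ≠ c := fun h => h2 ⟨rfl, h⟩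
    exact caseP M hmin b a c hab.symm hcd.symm h3
  by_cases e3 : b = c
  · subst e3
    right
    exact caseP M hmin a b d hab hcd e2
  by_cases e4 : b = d
  · subst e4
    right
    exact caseP M hmin a b c hab hcd.symm e1
  left
  exact caseM M hmin a b c d hab hcd e1 e2 e3 e4

/-- The colour of a vertex. -/
def vcol {V : Type} {t : ℕ} : (V ⊕ Fin t) ⊕ (Fin (3 - 1) × Fin t) → Fin 3
  | .inl _ => 0
  | .inr a => if a.1 = 0 then 1 else 2

theorem mono_adj {V : Type} {t : ℕ} (M : SimpleGraph V)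
    (x y : (V ⊕ Fin t) ⊕ (Fin (3 - 1) × Fin t)) (h : (GM M 3 t).Adj x y) (hc : vcol x = vcol y) :
    ∃ u v, x = .inl (.inl u) ∧ y = .inl (.inl v) ∧ M.Adj u v := by
  rcases x with (u | i) | ⟨a, i⟩
  · rcases y with (v | j) | ⟨b, j⟩
    · exact ⟨u, v, rfl, rfl, h⟩
    · exact absurd h (by simp [GM])
    · exfalso
      simp only [vcol] at hc
      split_ifs at hc <;> exact absurd hc (by decide)
  · rcases y with (v | j) | ⟨b, j⟩
    · exact absurd h (by simp [GM])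
    · exact absurd h (by simp [GM])
    · exfalso
      simp only [vcol] at hc
      split_ifs at hc <;> exact absurd hc (by decide)
  · rcases y with (v | j) | ⟨b, j⟩
    · exfalso
      simp only [vcol] at hc
      split_ifs at hc <;> exact absurd hc (by decide)
    · exfalso
      simp only [vcol] at hc
      split_ifs at hc <;> exact absurd hc (by decide)
    · exfalso
      have hab : a ≠ b := h
      simp only [vcol] at hc
      apply hab
      clear h hab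
      revert a b
      intro a b
      fin_cases a <;> fin_cases b <;> simp

theorem nodup_arcs : arcs.Nodup := by decide

theorem arcs_lt : ∀ e ∈ arcs, e.1 < 9 ∧ e.2 < 9 := by decide

theorem dec1 (h1 : S_FC1) : S_DEC1 := by
  intro V _ M hM
  obtain ⟨⟨t, _, ⟨f⟩⟩, hmin⟩ := hM
  have hmin' : ∀ M' : M.Subgraph, M' ≠ ⊤ → ¬ ∃ t : ℕ, 1 ≤ t ∧ Hg ⊑ GM M'.coe 3 t := hmin
  have hn := h1 (fun w => vcol (f w))
  unfold nbad at hn
  set L := arcs.filter fun e =>
    decide (vcol (f (Fin.ofNat 9 e.1)) = vcol (f (Fin.ofNat 9 e.2))) with hL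
  have hLn : L.Nodup := nodup_arcs.filter _
  have hmem : ∀ e ∈ L, e ∈ arcs ∧ vcol (f (Fin.ofNat 9 e.1)) = vcol (f (Fin.ofNat 9 e.2)) := by
    intro e he
    rw [hL, List.mem_filter] at he
    exact ⟨he.1, by simpa using he.2⟩
  have hdv : ∀ e ∈ arcs, Dv (Fin.ofNat 9 e.1) (Fin.ofNat 9 e.2) := by decide
  obtain ⟨e, he⟩ : ∃ e, e = L.get ⟨0, by omega⟩ := ⟨_, rfl⟩
  obtain ⟨e', he'⟩ : ∃ e', e' = L.get ⟨1, by omega⟩ := ⟨_, rfl⟩
  have hne : e ≠ e' := by
    intro h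
    rw [he, he'] at h
    have := (List.Nodup.get_inj_iff hLn).1 h
    simp at this
  have heL : e ∈ L := by rw [he]; exact List.get_mem _ _
  have heL' : e' ∈ L := by rw [he']; exact List.get_mem _ _
  obtain ⟨ha, hc⟩ := hmem e heL
  obtain ⟨ha', hc'⟩ := hmem e' heL'
  have hadj : ∀ i j, Dv i j → (GM M 3 t).Adj (f i) (f j) := by
    intro i j hij
    exact f.toHom.map_adj (Or.inl hij : Hg.Adj i j)
  obtain ⟨a, b, ea, eb, hab⟩ := mono_adj M _ _ (hadj _ _ (hdv e ha)) hc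
  obtain ⟨c, d, ec, ed, hcd⟩ := mono_adj M _ _ (hadj _ _ (hdv e' ha')) hc'
  have hinj : Function.Injective f := f.injective
  have hval : ∀ i < 9, ∀ j < 9, (Fin.ofNat 9 i : Fin 9) = Fin.ofNat 9 j → i = j := by decide
  obtain ⟨l1, l2⟩ := arcs_lt e ha
  obtain ⟨l3, l4⟩ := arcs_lt e' ha'
  apply case_two M hmin' a b c d hab hcd
  · rintro ⟨rfl, rfl⟩
    apply hne
    have k1 := hval _ l1 _ l3 (hinj (ea.trans ec.symm))
    have k2 := hval _ l2 _ l4 (hinj (eb.trans ed.symm))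
    exact Prod.ext k1 k2
  · rintro ⟨rfl, rfl⟩
    have k1 := hval _ l1 _ l4 (hinj (ea.trans ed.symm))
    have k2 := hval _ l2 _ l3 (hinj (eb.trans ec.symm))
    have k3 := hdv e ha
    rw [k1, k2] at k3
    exact dv_asymm _ _ (hdv e' ha') k3

end Pool.Agent.N879.OG
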